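import Mathlib
import Pool.Agent.N889.WU.Stm
import Pool.Agent.Y93.SB.Sep

/-!
# WU/FIN: assembly of the final statement
-/

set_option autoImplicit false

open Polynomial IntermediateField

namespace Pool.Agent.N850.WU

open Pool.Agent.N889.WU

universe u

/-- periodic points and points of finite orbit under an injective semiconjugacy -/
lemma periodic_iff {A B : Type u} (f : A → A) (g : B → B) (j : A → B)
    (hj : Function.Injective j) (h : ∀ z, j (f z) = g (j z)) (z : A) :
    z ∈ Function.periodicPts f ↔ j z ∈ Function.periodicPts g := by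
  have hit : ∀ (n : ℕ) (z : A), j (f^[n] z) = g^[n] (j z) := by
    intro n
    induction n with
    | zero => intro z; rfl
    | succ n ih => intro z; rw [Function.iterate_succ_apply', Function.iterate_succ_apply', h, ih]
  constructor
  · rintro ⟨n, hn, hz⟩
    refine ⟨n, hn, ?_⟩
    show g^[n] (j z) = j z
    rw [← hit]
    exact congrArg j hz
  · rintro ⟨n, hn, hz⟩
    refine ⟨n, hn, ?_⟩
    show f^[n] z = z
    apply hj
    rw [hit]
    exact hz

lemma finite_map {A B : Type u} (f : A → A) (g : B → B) (j : A → B)
    (h : ∀ z, j (f z) = g (j z)) (z : A)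
    (hz : (Set.range fun m : ℕ => f^[m] z).Finite) :
    (Set.range fun m : ℕ => g^[m] (j z)).Finite := by
  have hit : ∀ (n : ℕ) (z : A), j (f^[n] z) = g^[n] (j z) := by
    intro n
    induction n with
    | zero => intro z; rfl
    | succ n ih => intro z; rw [Function.iterate_succ_apply', Function.iterate_succ_apply', h, ih]
  refine (hz.image j).subset ?_
  rintro _ ⟨m, rfl⟩
  exact ⟨f^[m] z, ⟨m, rfl⟩, hit m z⟩

/-- A transcendental element of `L` and a positive degree over `k(t)` force `t` transcendental. -/
lemma transc {k L : Type u} [Field k] [Field L] [Algebra k L] (t : L)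
    (h0 : 0 < Module.finrank k⟮t⟯ L) (c : L) (hc : Transcendental k c) : Transcendental k t := by
  intro ht
  haveI : FiniteDimensional k⟮t⟯ L := FiniteDimensional.of_finrank_pos h0
  haveI : Algebra.IsAlgebraic k k⟮t⟯ := IntermediateField.isAlgebraic_adjoin_simple ht.isIntegral
  haveI : Algebra.IsAlgebraic k L := Algebra.IsAlgebraic.trans k k⟮t⟯ L
  exact hc (Algebra.IsAlgebraic.isAlgebraic c)

/-- the last claim -/
lemma count {p s : ℕ} [Fact p.Prime] {k L : Type u} [Field k] [CharP k p] [Field L] [Algebra k L]
    (h : k[X]) (c : L) (hd : 0 < h.natDegree)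
    (h1 : ∀ z ∈ Function.periodicPts (fm p s h c), ∀ w ∈ Function.periodicPts (fm p s h c), z = w)
    (h2 : ∀ z : L, (Set.range fun m : ℕ => (fm p s h c)^[m] z).Finite →
      fm p s h c z ∈ Function.periodicPts (fm p s h c)) :
    {z : L | (Set.range fun m : ℕ => (fm p s h c)^[m] z).Finite}.encard ≤ (h.natDegree : ℕ∞) := by
  classical
  haveI : CharP L p := charP_of_injective_algebraMap (algebraMap k L).injective p
  by_cases hne : (Function.periodicPts (fm p s h c)).Nonempty
  · obtain ⟨z₀, hz₀⟩ := hne
    have hfix : fm p s h c z₀ = z₀ := by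
      apply h1 _ _ _ hz₀
      obtain ⟨n, hn, hn2⟩ := hz₀
      exact ⟨n, hn, hn2.apply⟩
    set q : L[X] := h.map (algebraMap k L) - C (aeval z₀ h) with hq
    have hqd : q.natDegree = h.natDegree := by
      rw [hq, natDegree_sub_C, natDegree_map]
    have hq0 : q ≠ 0 := by
      rintro h0
      rw [h0, natDegree_zero] at hqd
      omega
    have hsub : {z : L | (Set.range fun m : ℕ => (fm p s h c)^[m] z).Finite} ⊆
        (q.roots.toFinset : Set L) := by
      intro z hz
      have h3 := h1 _ (h2 z hz) _ hz₀
      rw [← hfix] at h3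
      have h4 : (aeval z h) ^ p ^ s = (aeval z₀ h) ^ p ^ s := by
        have : (aeval z h) ^ p ^ s + c = (aeval z₀ h) ^ p ^ s + c := h3
        exact add_right_cancel this
      have h5 : aeval z h = aeval z₀ h := by
        have hinj : Function.Injective (iterateFrobenius L p s) := (iterateFrobenius L p s).injective
        apply hinj
        rw [iterateFrobenius_def, iterateFrobenius_def]
        exact h4
      rw [Finset.mem_coe, Multiset.mem_toFinset, mem_roots hq0, IsRoot.def, hq, eval_sub, eval_C,
        eval_map_algebraMap, h5, sub_self]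
    calc {z : L | (Set.range fun m : ℕ => (fm p s h c)^[m] z).Finite}.encard
        ≤ (q.roots.toFinset : Set L).encard := Set.encard_le_encard hsub
      _ = (q.roots.toFinset.card : ℕ∞) := Set.encard_coe_eq_coe_finsetCard _
      _ ≤ (h.natDegree : ℕ∞) := by
        have h6 := Multiset.toFinset_card_le q.roots
        have h7 := card_roots' q
        rw [hqd] at h7
        exact_mod_cast h6.trans h7
  · have hempty : {z : L | (Set.range fun m : ℕ => (fm p s h c)^[m] z).Finite} = ∅ := by
      ext z
      simp only [Set.mem_ofPred_eq, Set.mem_empty_iff_false, iff_false]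
      intro hz
      exact hne ⟨_, h2 z hz⟩
    rw [hempty, Set.encard_empty]
    simp

/-- WU/FIN -/
theorem t_FIN (hMAIN : S_MAIN.{u}) (hBC : S_BC.{u}) : S_FINAL.{u} := by
  intro p s _ k L _ _ _ _ t h0 h c hs hp hrank hc
  have ht := transc t h0 c hc
  haveI : FiniteDimensional k⟮t⟯ L := FiniteDimensional.of_finrank_pos h0
  obtain ⟨k', M, _, _, _, _, i, j, t', hij, htj, ht', hfin', hrank', hc'⟩ := hBC k L t ht inferInstance
  haveI : CharP k' p := charP_of_injective_ringHom i.injective p
  haveI : CharP M p := charP_of_injective_algebraMap (algebraMap k' M).injective p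
  obtain ⟨t'', h1, h2, h3, h4⟩ := Pool.Agent.Y93.SB.t_SEP p k' M t' ht' hfin'
  have hsf : SepFin k' t'' := ⟨h1, h3, h2⟩
  have hdeg : (h.map i).natDegree = h.natDegree := natDegree_map i
  have key := hMAIN p s k' M t'' hsf (h.map i) (j c) hs (by rwa [hdeg])
    (by rw [hdeg]; omega) (hc' c hc)
  have hsemi : ∀ z : L, j (fm p s h c z) = fm p s (h.map i) (j c) (j z) := by
    intro z
    unfold fm
    rw [map_add, map_pow]
    congr 2
    rw [aeval_def, aeval_def, eval₂_map, hom_eval₂]
    congr 1
    ext a
    exact hij a
  have hA : ∀ z ∈ Function.periodicPts (fm p s h c), ∀ w ∈ Function.periodicPts (fm p s h c),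
      z = w := by
    intro z hz w hw
    apply j.injective
    exact key.1 _ ((periodic_iff _ _ j j.injective hsemi z).mp hz) _
      ((periodic_iff _ _ j j.injective hsemi w).mp hw)
  have hB : ∀ z : L, (Set.range fun m : ℕ => (fm p s h c)^[m] z).Finite →
      fm p s h c z ∈ Function.periodicPts (fm p s h c) := by
    intro z hz
    rw [periodic_iff _ _ j j.injective hsemi, hsemi]
    exact key.2 _ (finite_map _ _ j hsemi z hz)
  refine ⟨?_, hB, count h c (by omega) hA hB⟩
  rw [Set.encard_le_one_iff]
  intro a b ha hb
  exact hA a ha b hb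

end Pool.Agent.N850.WU
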